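import Pool.Agent.H313.ZC.AP2

set_option autoImplicit false

/-! # The weak Mertens hypothesis and the almost periodicity of the Mertens function

Let `f(v) = M(e^v) e^(-v/2)`. The weak Mertens hypothesis says that `f` has a bounded mean square over `[0, V]`. We show that it is
equivalent to the almost periodicity of `f` in the sense of Besicovitch (`B²`), that the explicit formula then holds in mean square,
and that `f` has a limiting distribution and the expected autocorrelation. -/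

namespace Pool.Agent.Results.MP_323ce2_nt.AlmostPeriodic

open Filter Topology MeasureTheory

/-- The Mertens function `M(u)`, the sum of the Möbius function over the integers `1 ≤ n ≤ u`. -/
noncomputable def M (u : ℝ) : ℝ := ∑ n ∈ Finset.Icc 1 ⌊u⌋₊, ((ArithmeticFunction.moebius n : ℤ) : ℝ)

/-- The weak Mertens hypothesis: `∫_1^x (M(u)/u)² du ≤ C log x` for all `x ≥ 2`. -/
def WeakMertens : Prop := ∃ C : ℝ, ∀ x : ℝ, 2 ≤ x → ∫ u in (1 : ℝ)..x, (M u / u) ^ 2 ≤ C * Real.log x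

/-- `f(v) = M(e^v) e^(-v/2)`. -/
noncomputable def f (v : ℝ) : ℝ := M (Real.exp v) * Real.exp (-(v / 2))

/-- The mean value of `g` over `[0, V]`. -/
noncomputable def mean (g : ℝ → ℝ) (V : ℝ) : ℝ := (∫ v in (0 : ℝ)..V, g v) / V

/-- Almost periodicity in the sense of Besicovitch, with respect to the mean square: `g` can be approximated by trigonometric
polynomials `∑ a_l e^(i l v)`, `l ∈ K`, such that the upper mean value of `|g(v) - ∑ a_l e^(i l v)|²` over `[0, V]` is arbitrarily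
small. -/
def B2AlmostPeriodic (g : ℝ → ℝ) : Prop := ∀ ε : ℝ, 0 < ε → ∃ (K : Finset ℝ) (a : ℝ → ℂ), ∀ᶠ V : ℝ in atTop,
  mean (fun v => ‖((g v : ℝ) : ℂ) - ∑ l ∈ K, a l * Complex.exp (Complex.I * l * v)‖ ^ 2) V ≤ ε

/-- The nontrivial zeros of the Riemann zeta function. -/
def Zeros : Set ℂ := {ρ | riemannZeta ρ = 0 ∧ 0 < ρ.re ∧ ρ.re < 1}

/-- `1 / |ρ ζ'(ρ)|²`. -/
noncomputable def weight (ρ : ℂ) : ℝ := 1 / ‖ρ * deriv riemannZeta ρ‖ ^ 2

/-- The partial sum `∑ e^((ρ - 1/2) v) / (ρ ζ'(ρ))` over the finite set `Z` of zeros. -/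
noncomputable def partialSum (Z : Finset ℂ) (v : ℝ) : ℂ :=
  ∑ ρ ∈ Z, Complex.exp ((ρ - 1 / 2) * v) / (ρ * deriv riemannZeta ρ)

/-- `ν` is the limiting distribution of `M(u)/√u` with respect to the logarithmic measure `du/u`, for all continuous test
functions of at most quadratic growth. -/
def IsLimitLaw (ν : Measure ℝ) : Prop := ∀ (φ : ℝ → ℝ) (C : ℝ), Continuous φ → (∀ t, |φ t| ≤ C * (1 + t ^ 2)) →
  Integrable φ ν ∧
    Tendsto (fun x : ℝ => (∫ u in (1 : ℝ)..x, φ (M u / √u) / u) / Real.log x) atTop (𝓝 (∫ t, φ t ∂ν))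

open Pool.Agent.H313.ZC Pool.Agent.TH223.AP in
lemma cov (φ : ℝ → ℝ) {x : ℝ} (hx : 1 ≤ x) :
    (∫ u in (1 : ℝ)..x, φ (M u / √u) / u) / Real.log x = mn (fun v => φ (ft v)) (Real.log x) := by
  unfold mn
  congr 1
  have hlog := Real.log_nonneg hx
  obtain ⟨L, hL⟩ : ∃ L : ℝ, L = Real.log x := ⟨_, rfl⟩
  have hxL : x = Real.exp L := by rw [hL, Real.exp_log (by linarith)]
  rw [← hL] at hlog ⊢
  rw [hxL, intervalIntegral.integral_of_le (Real.one_le_exp hlog), intervalIntegral.integral_of_le hlog]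
  have h := integral_image_eq_integral_abs_deriv_smul (s := Set.Ioc 0 L) (f := Real.exp) (f' := Real.exp)
    measurableSet_Ioc (fun x _ => (Real.hasDerivAt_exp x).hasDerivWithinAt) (Real.exp_injective.injOn)
    (fun u => φ (M u / √u) / u)
  have himg : Real.exp '' Set.Ioc 0 L = Set.Ioc 1 (Real.exp L) := by
    ext y
    simp only [Set.mem_image, Set.mem_Ioc]
    constructor
    · rintro ⟨x, hx, rfl⟩
      exact ⟨Real.one_lt_exp_iff.2 hx.1, Real.exp_le_exp.2 hx.2⟩
    · intro hy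
      have hy0 : 0 < y := by linarith [hy.1]
      exact ⟨Real.log y, ⟨Real.log_pos hy.1, (Real.log_le_iff_le_exp hy0).2 hy.2⟩, Real.exp_log hy0⟩
  rw [himg] at h
  rw [h]
  refine integral_congr_ae (Eventually.of_forall fun s => ?_)
  simp only
  have e1 : √(Real.exp s) = Real.exp (s / 2) := by
    rw [Real.sqrt_eq_iff_mul_self_eq (Real.exp_pos s).le (Real.exp_pos _).le, ← Real.exp_add]
    ring_nf
  have e2 : M (Real.exp s) / √(Real.exp s) = ft s := by
    rw [e1, div_eq_mul_inv, ← Real.exp_neg]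
    rfl
  rw [e2, abs_of_pos (Real.exp_pos s), smul_eq_mul]
  have := (Real.exp_pos s).ne'
  field_simp

open Pool.Agent.H313.ZC Pool.Agent.TH223.AP in
lemma wm_iff : WeakMertens ↔ HS ∧ Summable (fun ρ : Pool.Agent.W120.WM.NT => aa ρ) := by
  constructor
  · rintro ⟨C, hC⟩
    have h1 : ∃ᶠ x in atTop, Pool.Agent.H295R2.II x ≤ C * Real.log x :=
      ((eventually_ge_atTop (2 : ℝ)).mono fun x hx => hC x hx).frequently
    obtain ⟨h2, h3, -⟩ := conv h1
    exact ⟨h2, h3⟩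
  · rintro ⟨h1, h2⟩
    exact bdd_of_lim (lim_II h1 h2)

open Pool.Agent.H313.ZC Pool.Agent.TH223.AP in
/-- **Theorem.** The weak Mertens hypothesis holds if and only if `f(v) = M(e^v) e^(-v/2)` is almost periodic in the sense of
Besicovitch. In that case `∑ 1/|ρ ζ'(ρ)|²` converges, and
(i) for every finite set `Z` of zeros the mean of `|f(v) - ∑_{ρ ∈ Z} e^((ρ-1/2)v)/(ρ ζ'(ρ))|²` over `[0, V]` tends, as `V → ∞`, to
`∑_{ρ ∉ Z} 1/|ρ ζ'(ρ)|²` (the explicit formula in mean square);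
(ii) for every `h ≥ 0` the mean of `f(v) f(v + h)` tends to `∑ cos(γ h)/|ρ ζ'(ρ)|²`;
(iii) `M(u)/√u` has a limiting distribution `ν` with respect to `du/u`, for test functions of at most quadratic growth; its mean is
`0` and its second moment is `∑ 1/|ρ ζ'(ρ)|²`. -/
theorem result : (WeakMertens ↔ B2AlmostPeriodic f) ∧ (WeakMertens →
    Summable (fun ρ : Zeros => weight ρ) ∧
    (∀ Z : Finset ℂ, (∀ ρ ∈ Z, ρ ∈ Zeros) →
      Tendsto (mean fun v => ‖((f v : ℝ) : ℂ) - partialSum Z v‖ ^ 2) atTop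
        (𝓝 (∑' ρ : Zeros, weight ρ - ∑ ρ ∈ Z, weight ρ))) ∧
    (∀ h : ℝ, 0 ≤ h → Tendsto (mean fun v => f v * f (v + h)) atTop
      (𝓝 (∑' ρ : Zeros, weight ρ * Real.cos ((ρ : ℂ).im * h)))) ∧
    ∃ ν : Measure ℝ, IsProbabilityMeasure ν ∧ IsLimitLaw ν ∧ ∫ t, t ∂ν = 0 ∧
      ∫ t, t ^ 2 ∂ν = ∑' ρ : Zeros, weight ρ) := by
  refine ⟨?_, fun hW => ?_⟩
  · rw [wm_iff]
    constructor
    · rintro ⟨h1, h2⟩
      exact ft_B2 h1 h2
    · intro h
      exact of_B2 h
  · obtain ⟨h1, h2⟩ := wm_iff.1 hW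
    refine ⟨h2, fun Z hZ => ?_, fun h h0 => corr h1 h2 h0, ?_⟩
    · have h3 := dist_fin h1 h2 Z hZ
      have e1 : ∑ ρ ∈ Z, ‖Pool.Agent.H295R2.ww ρ‖ ^ 2 = ∑ ρ ∈ Z, weight ρ :=
        Finset.sum_congr rfl fun ρ _ => (aa_eq ρ).symm
      have e2 : (fun v : ℝ => ‖((f v : ℝ) : ℂ) - partialSum Z v‖ ^ 2) =
          fun v : ℝ => ‖((ft v : ℝ) : ℂ) - ∑ ρ ∈ Z, Pool.Agent.H295R2.ww ρ * Pool.Agent.H295R2.ee ρ v‖ ^ 2 := by
        funext v
        have e3 : partialSum Z v = ∑ ρ ∈ Z, Pool.Agent.H295R2.ww ρ * Pool.Agent.H295R2.ee ρ v := by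
          unfold partialSum
          refine Finset.sum_congr rfl fun ρ _ => ?_
          unfold Pool.Agent.H295R2.ww Pool.Agent.H295R2.ee
          rw [div_mul_eq_mul_div, one_mul]
        rw [e3]
        rfl
      rw [e1] at h3
      rw [e2]
      exact h3
    · obtain ⟨μ, hμ⟩ := exists_mu h1 h2
      have q1 : ∀ t : ℝ, |t| ≤ 1 * (1 + t ^ 2) := by
        intro t
        rw [abs_le]
        constructor <;> nlinarith [sq_nonneg (t - 1), sq_nonneg (t + 1)]
      have q2 : ∀ t : ℝ, |t ^ 2| ≤ 1 * (1 + t ^ 2) := by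
        intro t
        rw [abs_of_nonneg (sq_nonneg t)]
        linarith
      refine ⟨μ, inferInstance, fun φ C hφ hC => ?_, ?_, ?_⟩
      · obtain ⟨h3, h4⟩ := hμ φ C hφ hC
        refine ⟨h3, (h4.comp Real.tendsto_log_atTop).congr' ?_⟩
        filter_upwards [eventually_ge_atTop (1 : ℝ)] with x hx
        rw [cov φ hx]
        rfl
      · exact tendsto_nhds_unique (hμ (fun t => t) 1 continuous_id q1).2 (mean_zero h1 h2)
      · exact tendsto_nhds_unique (hμ (fun t => t ^ 2) 1 (continuous_pow 2) q2).2 (second_lim h1 h2)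

end Pool.Agent.Results.MP_323ce2_nt.AlmostPeriodic
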