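import Pool.Agent.H313.ZC.Fin
import Pool.Agent.H313.ZC.RH

set_option autoImplicit false

/-! # The exact mean square of the Mertens function, and a criterion for the weak Mertens hypothesis -/

namespace Pool.Agent.Results.MP_323ce2_nt.ZeroSumLimit

open Filter Topology

/-- The Mertens function `M(u)`, the sum of the Möbius function over the integers `1 ≤ n ≤ u`. -/
noncomputable def M (u : ℝ) : ℝ := ∑ n ∈ Finset.Icc 1 ⌊u⌋₊, ((ArithmeticFunction.moebius n : ℤ) : ℝ)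

/-- The integral `I(x)` of `(M(u)/u)²` over `1 ≤ u ≤ x`. -/
noncomputable def I (x : ℝ) : ℝ := ∫ u in (1 : ℝ)..x, (M u / u) ^ 2

/-- The nontrivial zeros of the Riemann zeta function. -/
def Zeros : Set ℂ := {ρ | riemannZeta ρ = 0 ∧ 0 < ρ.re ∧ ρ.re < 1}

/-- The weight, in `[0, ∞]`, of a zero `ρ`: it is `1 / |ρ ζ'(ρ)|²` if `ρ` is simple and on the critical line, and `∞` otherwise. -/
noncomputable def weight (ρ : ℂ) : ENNReal :=
  if ρ.re = 1 / 2 ∧ deriv riemannZeta ρ ≠ 0 then ENNReal.ofReal (1 / ‖ρ * deriv riemannZeta ρ‖ ^ 2) else ⊤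

/-- The three conditions on the zeros. -/
def ZeroConditions : Prop :=
  RiemannHypothesis ∧ (∀ ρ ∈ Zeros, deriv riemannZeta ρ ≠ 0) ∧
    Summable (fun ρ : Zeros => 1 / ‖(ρ : ℂ) * deriv riemannZeta ρ‖ ^ 2)

open Pool.Agent.H313.ZC in
lemma cond_iff : ZeroConditions ↔ HS ∧ Summable (fun ρ : Pool.Agent.W120.WM.NT => aa ρ) := by
  unfold ZeroConditions
  rw [rh_iff_strip]
  constructor
  · rintro ⟨h1, h2, h3⟩
    exact ⟨fun ρ hρ => ⟨h1 ρ hρ, h2 ρ hρ⟩, h3⟩
  · rintro ⟨h1, h2⟩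
    exact ⟨fun ρ hρ => (h1 ρ hρ).1, fun ρ hρ => (h1 ρ hρ).2, h2⟩

open Pool.Agent.H313.ZC in
/-- **Theorem.** (i) Unconditionally, `I(x) / log x` tends, as `x → ∞`, to the sum in `[0, ∞]` of the weights of the zeros.
(ii) The weak Mertens hypothesis `I(x) ≤ C log x` (`x ≥ 2`) holds if and only if the Riemann hypothesis holds, all
nontrivial zeros are simple and `∑ 1 / |ρ ζ'(ρ)|²` converges.
(iii) If `I(x) ≤ C log x` for arbitrarily large `x`, one fixed `C`, then these conditions hold, the sum is at most `C` and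
`I(x) / log x` converges to it. -/
theorem result :
    Tendsto (fun x : ℝ => ENNReal.ofReal (I x / Real.log x)) atTop (𝓝 (∑' ρ : Zeros, weight ρ)) ∧
    ((∃ C : ℝ, ∀ x : ℝ, 2 ≤ x → I x ≤ C * Real.log x) ↔ ZeroConditions) ∧
    ∀ C : ℝ, (∃ᶠ x : ℝ in atTop, I x ≤ C * Real.log x) →
      ZeroConditions ∧ ∑' ρ : Zeros, 1 / ‖(ρ : ℂ) * deriv riemannZeta ρ‖ ^ 2 ≤ C ∧
        Tendsto (fun x : ℝ => I x / Real.log x) atTop (𝓝 (∑' ρ : Zeros, 1 / ‖(ρ : ℂ) * deriv riemannZeta ρ‖ ^ 2)) := by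
  have hI : I = Pool.Agent.H295R2.II := rfl
  have hfreq : ∀ C : ℝ, (∃ᶠ x : ℝ in atTop, I x ≤ C * Real.log x) →
      ZeroConditions ∧ ∑' ρ : Zeros, 1 / ‖(ρ : ℂ) * deriv riemannZeta ρ‖ ^ 2 ≤ C ∧
        Tendsto (fun x : ℝ => I x / Real.log x) atTop (𝓝 (∑' ρ : Zeros, 1 / ‖(ρ : ℂ) * deriv riemannZeta ρ‖ ^ 2)) := by
    intro C h
    rw [hI] at h
    obtain ⟨h1, h2, h3⟩ := conv h
    exact ⟨cond_iff.2 ⟨h1, h2⟩, h3, lim_II h1 h2⟩
  refine ⟨?_, ⟨?_, ?_⟩, hfreq⟩
  · by_cases hc : ZeroConditions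
    · obtain ⟨h1, h2⟩ := cond_iff.1 hc
      have h3 := (ENNReal.continuous_ofReal.tendsto _).comp (lim_II h1 h2)
      have h4 : ENNReal.ofReal (∑' ρ : Pool.Agent.W120.WM.NT, aa ρ) = ∑' ρ : Zeros, weight ρ := by
        rw [ENNReal.ofReal_tsum_of_nonneg (f := fun ρ : Pool.Agent.W120.WM.NT => aa ρ) (fun ρ => aa_nonneg ρ) h2]
        refine tsum_congr fun ρ => ?_
        unfold weight
        rw [if_pos (h1 ρ ρ.2)]
        rfl
      rw [h4] at h3
      exact h3
    · have h1 := lim_top (fun h => hc (cond_iff.2 h))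
      have h2 : ∑' ρ : Zeros, weight ρ = ⊤ := by
        by_contra hne
        apply hc
        rw [cond_iff]
        have h3 : ∀ ρ : Zeros, weight ρ ≠ ⊤ := ENNReal.ne_top_of_tsum_ne_top hne
        have h4 : ∀ ρ ∈ Zeros, ρ.re = 1 / 2 ∧ deriv riemannZeta ρ ≠ 0 := by
          intro ρ hρ
          by_contra h5
          have h6 := h3 ⟨ρ, hρ⟩
          unfold weight at h6
          rw [if_neg h5] at h6
          exact h6 rfl
        refine ⟨fun ρ hρ => h4 ρ hρ, ?_⟩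
        have h5 := ENNReal.summable_toReal hne
        have h6 : (fun ρ : Zeros => (weight ρ).toReal) = fun ρ : Zeros => 1 / ‖(ρ : ℂ) * deriv riemannZeta ρ‖ ^ 2 := by
          funext ρ
          unfold weight
          rw [if_pos (h4 ρ ρ.2), ENNReal.toReal_ofReal (by positivity)]
        rw [h6] at h5
        exact h5
      rw [h2]
      exact ENNReal.tendsto_ofReal_nhds_top.2 h1
  · rintro ⟨C, hC⟩
    exact (hfreq C ((eventually_ge_atTop (2 : ℝ)).mono fun x hx => hC x hx).frequently).1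
  · intro hc
    obtain ⟨h1, h2⟩ := cond_iff.1 hc
    have h3 := lim_II h1 h2
    have hmono : ∀ x y : ℝ, 1 ≤ x → x ≤ y → I x ≤ I y := by
      intro x y hx hxy
      rw [hI, Pool.Agent.H295R2.II_eq hx, Pool.Agent.H295R2.II_eq (hx.trans hxy)]
      exact Pool.Agent.H295R2.JJ_mono (Real.log_le_log (by linarith) hxy)
    have h4 : ∀ᶠ x : ℝ in atTop, I x / Real.log x < ∑' ρ : Pool.Agent.W120.WM.NT, aa ρ + 1 :=
      h3.eventually (gt_mem_nhds (by linarith))
    obtain ⟨X, hX⟩ := (h4.and (eventually_ge_atTop (2 : ℝ))).exists_forall_of_atTop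
    have hS : 0 ≤ ∑' ρ : Pool.Agent.W120.WM.NT, aa ρ := tsum_nonneg fun ρ => aa_nonneg ρ
    have hl2 : 0 < Real.log 2 := Real.log_pos (by norm_num)
    have hI0 : 0 ≤ I X := by
      have e1 : I 1 = 0 := by simp [I]
      rw [← e1]
      exact hmono 1 X le_rfl (by linarith [(hX X le_rfl).2])
    refine ⟨∑' ρ : Pool.Agent.W120.WM.NT, aa ρ + 1 + I X / Real.log 2, fun x hx => ?_⟩
    have hlx : Real.log 2 ≤ Real.log x := Real.log_le_log (by norm_num) hx
    have hlx0 : 0 ≤ Real.log x := hl2.le.trans hlx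
    rw [add_mul]
    rcases le_total X x with h | h
    · have h5 := (hX x h).1
      rw [div_lt_iff₀ (by linarith)] at h5
      have h6 : 0 ≤ I X / Real.log 2 * Real.log x := mul_nonneg (div_nonneg hI0 hl2.le) hlx0
      linarith
    · have h5 := hmono x X (by linarith) h
      have h6 : I X ≤ I X / Real.log 2 * Real.log x := by
        rw [div_mul_eq_mul_div, le_div_iff₀ hl2]
        gcongr
      have h7 : 0 ≤ (∑' ρ : Pool.Agent.W120.WM.NT, aa ρ + 1) * Real.log x := mul_nonneg (by linarith) hlx0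
      linarith

end Pool.Agent.Results.MP_323ce2_nt.ZeroSumLimit
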