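import Pool.Agent.H362.MW.Exact

set_option autoImplicit false

/-! # The Mertens function and its best approximation by finitely many waves

No hypothesis. Let `f(v) = M(e^v) e^(-v/2)`. For a finite set `K` of real numbers (frequencies) we determine the smallest mean square
distance over `[0, V]`, `V → ∞`, of `f` from the sums `∑ a_l e^(i l v)`, `l ∈ K`: it is the sum `E K` of `1/|ρ ζ'(ρ)|²` over the nontrivial
zeros `ρ` with `Im ρ ∉ K`, a multiple zero or a zero off the critical line counting `∞`. For all `N ≥ N₀(ε)` the distance of `f` from every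
sum of `N` waves, with any frequencies, is at least `(log N) ^ (1/2 - ε) / N`. -/

namespace Pool.Agent.Results.MP_323ce2_nt.BestApproximationByWaves

open Filter Topology
open scoped ENNReal

/-- The Mertens function `M(u)`, the sum of the Möbius function over the integers `1 ≤ n ≤ u`. -/
noncomputable def M (u : ℝ) : ℝ := ∑ n ∈ Finset.Icc 1 ⌊u⌋₊, ((ArithmeticFunction.moebius n : ℤ) : ℝ)

/-- The weak Mertens hypothesis (the bound of Q1): `∫_1^x (M(u)/u)² du ≤ C log x` for all `x ≥ 2`. -/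
def WeakMertens : Prop := ∃ C : ℝ, ∀ x : ℝ, 2 ≤ x → ∫ u in (1 : ℝ)..x, (M u / u) ^ 2 ≤ C * Real.log x

/-- `f(v) = M(e^v) e^(-v/2)`. -/
noncomputable def f (v : ℝ) : ℝ := M (Real.exp v) * Real.exp (-(v / 2))

/-- The mean value of `g` over `[0, V]`. -/
noncomputable def mean (g : ℝ → ℝ) (V : ℝ) : ℝ := (∫ v in (0 : ℝ)..V, g v) / V

/-- The sum of waves `∑ a_l e^(i l v)` with frequencies `l ∈ K`. -/
noncomputable def waves (K : Finset ℝ) (a : ℝ → ℂ) (v : ℝ) : ℂ := ∑ l ∈ K, a l * Complex.exp (Complex.I * l * v)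

/-- The mean over `[0, V]` of `|f(v) - ∑ a_l e^(i l v)|²`. -/
noncomputable def dist (K : Finset ℝ) (a : ℝ → ℂ) (V : ℝ) : ℝ := mean (fun v => ‖((f v : ℝ) : ℂ) - waves K a v‖ ^ 2) V

/-- The nontrivial zeros of the Riemann zeta function. -/
def Zeros : Set ℂ := {ρ | riemannZeta ρ = 0 ∧ 0 < ρ.re ∧ ρ.re < 1}

open Classical in
/-- The weight of a zero `ρ`: `∞` if it is multiple or off the critical line, otherwise `1/|ρ ζ'(ρ)|²` if `Im ρ` is not one of the
frequencies in `K`, and `0` if it is. -/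
noncomputable def weight (K : Finset ℝ) (ρ : ℂ) : ℝ≥0∞ :=
  if ρ.re = 1 / 2 ∧ deriv riemannZeta ρ ≠ 0 then
    (if ρ.im ∈ K then 0 else ENNReal.ofReal (1 / ‖ρ * deriv riemannZeta ρ‖ ^ 2))
  else ⊤

/-- `E K`, the sum of the weights over the nontrivial zeros, in `[0, ∞]`. -/
noncomputable def E (K : Finset ℝ) : ℝ≥0∞ := ∑' ρ : Zeros, weight K ρ

lemma E_eq (K : Finset ℝ) : E K = Pool.Agent.H362.MW.EK K := rfl

lemma dist_eq (K : Finset ℝ) (a : ℝ → ℂ) (V : ℝ) : dist K a V =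
    Pool.Agent.TH223.AP.mn (fun v => ‖((Pool.Agent.TH223.AP.ft v : ℝ) : ℂ) - Pool.Agent.TH223.AP.trig K a v‖ ^ 2) V := rfl

open Pool.Agent.H313.ZC Pool.Agent.TH223.AP in
lemma wm_iff : WeakMertens ↔ HS ∧ Summable (fun ρ : Pool.Agent.W120.WM.NT => aa ρ) := by
  constructor
  · rintro ⟨C, hC⟩
    have h1 : ∃ᶠ x in atTop, Pool.Agent.H295R2.II x ≤ C * Real.log x :=
      ((eventually_ge_atTop (2 : ℝ)).mono fun x hx => hC x hx).frequently
    obtain ⟨h2, h3, -⟩ := conv h1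
    exact ⟨h2, h3⟩
  · rintro ⟨h1, h2⟩
    exact bdd_of_lim (lim_II h1 h2)

/-- **Theorem.** -/
theorem result :
    -- the smallest distance from the sums of waves with frequencies in `K` is `E K`
    (∀ (K : Finset ℝ) (a : ℝ → ℂ), E K ≤ liminf (fun V : ℝ => ENNReal.ofReal (dist K a V)) atTop) ∧
    (∀ K : Finset ℝ, ∃ a : ℝ → ℂ, Tendsto (fun V : ℝ => ENNReal.ofReal (dist K a V)) atTop (𝓝 (E K))) ∧
    -- it is finite for one `K`, and for all `K`, if and only if the bound of Q1 holds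
    (∀ K : Finset ℝ, E K < ⊤ ↔ WeakMertens) ∧
    -- `N` waves do not give more than `(log N) ^ (1/2 - ε) / N`
    (∀ ε : ℝ, 0 < ε → ∃ N₀ : ℕ, ∀ N : ℕ, N₀ ≤ N → ∀ (K : Finset ℝ) (a : ℝ → ℂ), K.card ≤ N →
      ∀ᶠ V : ℝ in atTop, Real.log N ^ (1 / 2 - ε) / (N : ℝ) ≤ dist K a V) := by
  refine ⟨Pool.Agent.H362.MW.lower, Pool.Agent.H362.MW.attained, fun K => ?_, fun ε hε => Pool.Agent.H362.MW.waves hε⟩
  rw [wm_iff, E_eq]
  constructor
  · intro h
    by_contra h1
    rw [Pool.Agent.H362.MW.EK_no h1 K] at h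
    exact lt_irrefl _ h
  · rintro ⟨h1, h2⟩
    rw [Pool.Agent.H362.MW.EK_yes h1 h2 K]
    exact ENNReal.ofReal_lt_top

end Pool.Agent.Results.MP_323ce2_nt.BestApproximationByWaves
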