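import Pool.Agent.H313.ZC.FR

set_option autoImplicit false

/-! # Franel's sum over the Farey fractions and the weak Mertens hypothesis

Let `r_1 < ... < r_Φ` be the Farey fractions of order `N` in `(0, 1]` and `F_N = ∑_ν (r_ν - ν/Φ)²`. By Franel's theorem the Riemann
hypothesis is equivalent to `F_N = O(N^(-1+ε))`. We determine the true size of `F_N` unconditionally, outside a set of `N` of logarithmic
density zero: `N F_N / log N` tends to `π²/(36 ζ(3)) ∑_ρ |ζ(1+ρ)|²/|ρ ζ'(ρ)|²`, read as `∞` if the Riemann hypothesis fails or a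
zero is multiple. The weak Mertens hypothesis is equivalent to `F_N ≤ C (log N)/N` for infinitely many `N`. -/

namespace Pool.Agent.Results.MP_323ce2_nt.FranelSum

open Filter Topology MeasureTheory
open scoped ENNReal

/-- The Mertens function `M(u)`, the sum of the Möbius function over the integers `1 ≤ n ≤ u`. -/
noncomputable def M (u : ℝ) : ℝ := ∑ n ∈ Finset.Icc 1 ⌊u⌋₊, ((ArithmeticFunction.moebius n : ℤ) : ℝ)

/-- The weak Mertens hypothesis: `∫_1^x (M(u)/u)² du ≤ C log x` for all `x ≥ 2`. -/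
def WeakMertens : Prop := ∃ C : ℝ, ∀ x : ℝ, 2 ≤ x → ∫ u in (1 : ℝ)..x, (M u / u) ^ 2 ≤ C * Real.log x

open Classical in
/-- The Farey fractions `a/n` of order `N` in `(0, 1]`, as the pairs `(a, n)` with `1 ≤ a ≤ n ≤ N` and `(a, n) = 1`. -/
noncomputable def farey (N : ℕ) : Finset (ℕ × ℕ) :=
  (Finset.Icc 1 N ×ˢ Finset.Icc 1 N).filter fun q : ℕ × ℕ => q.1 ≤ q.2 ∧ q.1.Coprime q.2

open Classical in
/-- The number of the Farey fractions of order `N` which are at most `t`. If `t` is one of them, this is its index. -/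
noncomputable def index (N : ℕ) (t : ℝ) : ℕ := ((farey N).filter fun q : ℕ × ℕ => (q.1 : ℝ) / (q.2 : ℝ) ≤ t).card

/-- Franel's sum `∑_ν (r_ν - ν/Φ)²`, where `r_ν` is the `ν`-th of the `Φ` Farey fractions of order `N`. -/
noncomputable def franel (N : ℕ) : ℝ :=
  ∑ q ∈ farey N, ((q.1 : ℝ) / (q.2 : ℝ) - (index N ((q.1 : ℝ) / (q.2 : ℝ)) : ℝ) / ((farey N).card : ℝ)) ^ 2

/-- The integral over `0 ≤ t ≤ 1` of the square of the discrepancy `#{r_ν ≤ t} - Φ t`. -/
noncomputable def franelIntegral (N : ℕ) : ℝ :=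
  ∫ t in (0 : ℝ)..1, ((index N t : ℝ) - ((farey N).card : ℝ) * t) ^ 2

/-- The nontrivial zeros of the Riemann zeta function. -/
def Zeros : Set ℂ := {ρ | riemannZeta ρ = 0 ∧ 0 < ρ.re ∧ ρ.re < 1}

/-- The weight, in `[0, ∞]`, of a zero `ρ`: it is `|ζ(1+ρ)|² / |ρ ζ'(ρ)|²` if `ρ` is simple and on the critical line, and `∞`
otherwise. -/
noncomputable def weight (ρ : ℂ) : ℝ≥0∞ :=
  if ρ.re = 1 / 2 ∧ deriv riemannZeta ρ ≠ 0 then
    ENNReal.ofReal (‖riemannZeta (1 + ρ)‖ ^ 2 / ‖ρ * deriv riemannZeta ρ‖ ^ 2) else ⊤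

/-- The constant `π²/(36 ζ(3))` times the sum of the weights of the zeros, in `[0, ∞]`. -/
noncomputable def K : ℝ≥0∞ :=
  ENNReal.ofReal (Real.pi ^ 2 / (36 * ∑' n : ℕ, 1 / (n : ℝ) ^ 3)) * ∑' ρ : Zeros, weight ρ

/-- A set of positive integers has logarithmic density zero. -/
def LogDensityZero (A : Set ℕ) : Prop :=
  Tendsto (fun X : ℕ => (∑ N ∈ Finset.Icc 1 X, A.indicator (fun N => 1 / (N : ℝ)) N) / Real.log X) atTop (𝓝 0)

open Pool.Agent.Q120.FA in
lemma farey_eq (N : ℕ) : farey N = FN N := by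
  unfold farey FN
  ext q
  simp only [Finset.mem_filter]

open Pool.Agent.Q120.FA in
lemma index_eq (N : ℕ) (t : ℝ) : index N t = cnt N t := by
  unfold index cnt farey
  congr 1
  ext q
  simp only [Finset.mem_filter, and_assoc]

open Pool.Agent.Q120.FA in
lemma franel_eq (N : ℕ) : franel N = D 2 N := by
  unfold franel D fp
  rw [farey_eq]
  refine Finset.sum_congr rfl fun q _ => ?_
  rw [index_eq, Real.rpow_ofNat, sq_abs]

open Pool.Agent.Q120.FA in
lemma integral_eq (N : ℕ) : franelIntegral N = FI N := by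
  unfold franelIntegral FI E
  rw [farey_eq, card_FN]
  simp only [index_eq]
  rfl

open Pool.Agent.H313.ZC Pool.Agent.Q120.FA in
lemma wm_iff : WeakMertens ↔ ZC := by
  rw [FR.zc_iff]
  constructor
  · rintro ⟨C, hC⟩
    have h1 : ∃ᶠ x in atTop, Pool.Agent.H295R2.II x ≤ C * Real.log x :=
      ((eventually_ge_atTop (2 : ℝ)).mono fun x hx => hC x hx).frequently
    obtain ⟨h2, h3, -⟩ := conv h1
    exact ⟨h2, h3⟩
  · rintro ⟨h1, h2⟩
    exact bdd_of_lim (lim_II h1 h2)

open Pool.Agent.H313.ZC Pool.Agent.Q120.FA in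
lemma K_fin (h : ZC) : K = ENNReal.ofReal FR.KD := by
  unfold K
  have hb : Summable (fun ρ : Pool.Agent.W120.WM.NT => W2.bb ρ) :=
    Summable.of_nonneg_of_le (fun ρ => W2.bb_nonneg ρ) (fun ρ => W2.bb_le (h.1 ρ ρ.2).1)
      ((show Summable (fun ρ : Pool.Agent.W120.WM.NT => aa ρ) from h.2).mul_left (Pool.Agent.Q124.FA.cc ^ 2))
  have h1 : ∑' ρ : Zeros, weight ρ = ENNReal.ofReal zs := by
    have h2 := ENNReal.ofReal_tsum_of_nonneg (f := fun ρ : Pool.Agent.W120.WM.NT => W2.bb ρ)
      (fun ρ => W2.bb_nonneg ρ) hb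
    have h3 : zs = ∑' ρ : Pool.Agent.W120.WM.NT, W2.bb ρ := rfl
    rw [h3, h2]
    refine tsum_congr fun ρ => ?_
    unfold weight
    rw [if_pos (h.1 ρ ρ.2)]
    rfl
  have h4 : 0 < z3 := Pool.Agent.Q299.FA.WS.z3_pos
  have h5 : Real.pi ^ 2 / (36 * ∑' n : ℕ, 1 / (n : ℝ) ^ 3) = Real.pi ^ 2 / (36 * z3) := rfl
  rw [h1, h5, ← ENNReal.ofReal_mul (by positivity)]
  congr 1
  unfold FR.KD SQ
  field_simp
  try ring
  try norm_num

open Pool.Agent.H313.ZC Pool.Agent.Q120.FA in
lemma K_top (h : ¬ ZC) : K = ⊤ := by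
  unfold K
  have h4 : 0 < z3 := Pool.Agent.Q299.FA.WS.z3_pos
  have h5 : 0 < Real.pi ^ 2 / (36 * ∑' n : ℕ, 1 / (n : ℝ) ^ 3) := by
    have : 0 < ∑' n : ℕ, 1 / (n : ℝ) ^ 3 := h4
    positivity
  have h6 : ∑' ρ : Zeros, weight ρ = ⊤ := by
    by_contra hne
    apply h
    have h3 : ∀ ρ : Zeros, weight ρ ≠ ⊤ := ENNReal.ne_top_of_tsum_ne_top hne
    have h4 : ∀ ρ ∈ Zeros, ρ.re = 1 / 2 ∧ deriv riemannZeta ρ ≠ 0 := by
      intro ρ hρ
      by_contra h5
      have h6 := h3 ⟨ρ, hρ⟩
      unfold weight at h6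
      rw [if_neg h5] at h6
      exact h6 rfl
    refine ⟨fun ρ hρ => h4 ρ hρ, ?_⟩
    have h5 := ENNReal.summable_toReal hne
    have h6 : (fun ρ : Zeros => (weight ρ).toReal) = fun ρ : Zeros => W2.bb ρ := by
      funext ρ
      unfold weight
      rw [if_pos (h4 ρ ρ.2), ENNReal.toReal_ofReal (by positivity)]
      rfl
    rw [h6] at h5
    obtain ⟨C, hC, hC2⟩ := FR.bb_ge
    exact Summable.of_nonneg_of_le (fun ρ => aa_nonneg ρ) (fun ρ => hC2 ρ (h4 ρ ρ.2).1) (h5.mul_left C)
  rw [h6, ENNReal.mul_top (ENNReal.ofReal_pos.2 h5).ne']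

open Pool.Agent.Q120.FA in
lemma logNull_of {A : Set ℕ} {P : ℕ → Prop} (h : ∀ N, N ∈ A → P N) (hP : Null P) : LogDensityZero A := by
  classical
  unfold Null at hP
  refine squeeze_zero' (Eventually.of_forall fun X => ?_) (Eventually.of_forall fun X => ?_) hP
  · refine div_nonneg (Finset.sum_nonneg fun N _ => ?_) (Real.log_natCast_nonneg X)
    exact Set.indicator_nonneg (fun _ _ => by positivity) _
  · refine div_le_div_of_nonneg_right ?_ (Real.log_natCast_nonneg X)
    rw [Finset.sum_filter]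
    refine Finset.sum_le_sum fun N _ => ?_
    by_cases hN : N ∈ A
    · rw [Set.indicator_of_mem hN, if_pos (h N hN)]
    · rw [Set.indicator_of_notMem hN]
      split_ifs
      · positivity
      · exact le_rfl

lemma logNull_fin {A : Set ℕ} (h : ∀ᶠ N in atTop, N ∉ A) : LogDensityZero A := by
  obtain ⟨N₀, hN₀⟩ := eventually_atTop.1 h
  have h1 : Tendsto (fun X : ℕ => (∑ N ∈ Finset.Icc 1 N₀, 1 / (N : ℝ)) / Real.log X) atTop (𝓝 0) :=
    tendsto_const_nhds.div_atTop (Real.tendsto_log_atTop.comp tendsto_natCast_atTop_atTop)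
  refine squeeze_zero' (Eventually.of_forall fun X => ?_) (Eventually.of_forall fun X => ?_) h1
  · refine div_nonneg (Finset.sum_nonneg fun N _ => ?_) (Real.log_natCast_nonneg X)
    exact Set.indicator_nonneg (fun _ _ => by positivity) _
  · refine div_le_div_of_nonneg_right ?_ (Real.log_natCast_nonneg X)
    calc ∑ N ∈ Finset.Icc 1 X, A.indicator (fun N => 1 / (N : ℝ)) N ≤
        ∑ N ∈ Finset.Icc 1 X, if N ≤ N₀ then 1 / (N : ℝ) else 0 := by
          refine Finset.sum_le_sum fun N _ => ?_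
          by_cases hN : N ∈ A
          · have : N ≤ N₀ := by
              by_contra hcon
              exact hN₀ N (by omega) hN
            rw [Set.indicator_of_mem hN, if_pos this]
          · rw [Set.indicator_of_notMem hN]
            split_ifs
            · positivity
            · exact le_rfl
      _ = ∑ N ∈ (Finset.Icc 1 X).filter (fun N => N ≤ N₀), 1 / (N : ℝ) := (Finset.sum_filter _ _).symm
      _ ≤ ∑ N ∈ Finset.Icc 1 N₀, 1 / (N : ℝ) := by
          refine Finset.sum_le_sum_of_subset_of_nonneg (fun N hN => ?_) fun N _ _ => by positivity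
          rw [Finset.mem_filter, Finset.mem_Icc] at hN
          rw [Finset.mem_Icc]
          exact ⟨hN.1.1, hN.2⟩

open Pool.Agent.H313.ZC Pool.Agent.Q120.FA in
/-- **Theorem.** Let `F_N` be Franel's sum and `K = π²/(36 ζ(3)) ∑_ρ |ζ(1+ρ)|²/|ρ ζ'(ρ)|²` in `[0, ∞]` (a zero off the critical line or
multiple counts `∞`). Unconditionally:
(i) `liminf N F_N/log N ≥ K`, and (ii) `N F_N/log N → K` when `N → ∞` outside a set of logarithmic density zero, in the sense that for
every neighbourhood `U` of `K` the set of `N` with `N F_N/log N ∉ U` has logarithmic density zero;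
(iii) `∑_{N ≤ X} F_N/(log X)² → K/2`;
(iv) the weak Mertens hypothesis holds if and only if `K < ∞`, if and only if `F_N ≤ C (log N)/N` for one `C` and infinitely
many `N`, if and only if `∫_0^1 (#{r_ν ≤ t} - Φ t)² dt ≤ C N log N` for one `C` and infinitely many `N`;
(v) if for every `ε > 0` there are infinitely many `N` with `F_N ≤ ε (log N)³/N`, then the Riemann hypothesis holds and all nontrivial
zeros are simple. -/
theorem result :
    (∀ c : ℝ≥0∞, c < K → ∀ᶠ N : ℕ in atTop, c ≤ ENNReal.ofReal (N * franel N / Real.log N)) ∧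
    (∀ U ∈ 𝓝 K, LogDensityZero {N : ℕ | ENNReal.ofReal (N * franel N / Real.log N) ∉ U}) ∧
    Tendsto (fun X : ℕ => ENNReal.ofReal ((∑ N ∈ Finset.Icc 1 X, franel N) / Real.log X ^ 2)) atTop (𝓝 (K / 2)) ∧
    List.TFAE [WeakMertens, K < ⊤,
      ∃ C : ℝ, ∃ᶠ N : ℕ in atTop, franel N ≤ C * Real.log N / N,
      ∃ C : ℝ, ∃ᶠ N : ℕ in atTop, franelIntegral N ≤ C * (N * Real.log N)] ∧
    ((∀ ε : ℝ, 0 < ε → ∃ᶠ N : ℕ in atTop, franel N ≤ ε * Real.log N ^ 3 / N) →
      RiemannHypothesis ∧ ∀ ρ ∈ Zeros, deriv riemannZeta ρ ≠ 0) := by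
  have hb : ∀ N : ℕ, (N : ℝ) * franel N / Real.log N = bD N := fun N => by
    rw [franel_eq]
    rfl
  simp only [hb]
  refine ⟨?_, ?_, ?_, ?_, ?_⟩
  · intro c hc
    by_cases h : ZC
    · rw [K_fin h] at hc
      have hc1 : c ≠ ⊤ := (hc.trans ENNReal.ofReal_lt_top).ne
      have hc2 : c.toReal < FR.KD := (ENNReal.lt_ofReal_iff_toReal_lt hc1).1 hc
      filter_upwards [FR.lowD h _ hc2] with N hN
      rw [← ENNReal.ofReal_toReal hc1]
      exact ENNReal.ofReal_le_ofReal hN
    · rw [K_top h] at hc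
      have h1 : Tendsto (fun N => ENNReal.ofReal (bD N)) atTop (𝓝 ⊤) := ENNReal.tendsto_ofReal_nhds_top.2 (FR.topD h)
      exact (h1.eventually (lt_mem_nhds hc)).mono fun N hN => hN.le
  · intro U hU
    by_cases h : ZC
    · rw [K_fin h] at hU
      have h1 := (ENNReal.continuous_ofReal.tendsto FR.KD) hU
      obtain ⟨ε, hε, h2⟩ := Metric.mem_nhds_iff.1 h1
      refine logNull_of (P := fun N => ε / 2 < |bD N - FR.KD|) (fun N hN => ?_) (FR.nullD h (half_pos hε))
      by_contra hcon
      apply hN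
      have h3 : bD N ∈ Metric.ball FR.KD ε := by
        rw [Metric.mem_ball, Real.dist_eq]
        linarith
      exact h2 h3
    · rw [K_top h] at hU
      have h1 : Tendsto (fun N => ENNReal.ofReal (bD N)) atTop (𝓝 ⊤) := ENNReal.tendsto_ofReal_nhds_top.2 (FR.topD h)
      refine logNull_fin ?_
      filter_upwards [h1.eventually hU] with N hN hN2
      exact hN2 hN
  · have h0 : ∀ X : ℕ, 1 ≤ X → (∑ N ∈ Finset.Icc 1 X, franel N) / Real.log X ^ 2 = mean bD X := by
      intro X hX
      rw [← mean_D FR.w0 X hX]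
      simp only [franel_eq]
    by_cases h : ZC
    · have h1 := (ENNReal.continuous_ofReal.tendsto _).comp (FR.meanD h)
      have e1 : ENNReal.ofReal (FR.KD / 2) = K / 2 := by
        rw [K_fin h, ENNReal.ofReal_div_of_pos (by norm_num)]
        norm_num
      rw [e1] at h1
      refine h1.congr' ?_
      filter_upwards [eventually_ge_atTop 1] with X hX
      simp only [Function.comp]
      rw [h0 X hX]
    · have h1 : Tendsto (fun X => ENNReal.ofReal (mean bD X)) atTop (𝓝 ⊤) :=
        ENNReal.tendsto_ofReal_nhds_top.2 (FR.mean_topD h)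
      have e1 : K / 2 = ⊤ := by
        rw [K_top h]
        exact ENNReal.top_div_of_ne_top (by norm_num)
      rw [e1]
      refine h1.congr' ?_
      filter_upwards [eventually_ge_atTop 1] with X hX
      rw [h0 X hX]
  · have hKZ : K < ⊤ ↔ ZC := by
      constructor
      · intro hK
        by_contra h
        rw [K_top h] at hK
        exact lt_irrefl _ hK
      · intro h
        rw [K_fin h]
        exact ENNReal.ofReal_lt_top
    rw [← wm_iff] at hKZ
    tfae_have 1 ↔ 2 := hKZ.symm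
    tfae_have 1 → 3 := by
      intro h
      rw [wm_iff] at h
      obtain ⟨C, hC⟩ := freq_of_mean FR.w11 bD_nonneg (FR.meanD h)
      refine ⟨C, (hC.and_eventually (eventually_ge_atTop 2)).mono fun N hN => ?_⟩
      obtain ⟨h1, h2⟩ := hN
      have hN0 : (0 : ℝ) < N := by
        have : 0 < N := by omega
        exact_mod_cast this
      have hl : 0 < Real.log N := Real.log_pos (by exact_mod_cast h2)
      rw [← hb N, div_le_iff₀ hl] at h1
      rw [le_div_iff₀ hN0]
      linarith
    tfae_have 3 → 1 := by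
      rintro ⟨C, hC⟩
      rw [wm_iff]
      by_contra h
      obtain ⟨N, ⟨h1, h2⟩, h3⟩ := ((hC.and_eventually (eventually_ge_atTop 2)).and_eventually
        ((FR.topD h).eventually_gt_atTop C)).exists
      have hN0 : (0 : ℝ) < N := by
        have : 0 < N := by omega
        exact_mod_cast this
      have hl : 0 < Real.log N := Real.log_pos (by exact_mod_cast h2)
      rw [← hb N, lt_div_iff₀ hl] at h3
      rw [le_div_iff₀ hN0] at h1
      linarith
    tfae_have 1 → 4 := by
      intro h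
      rw [wm_iff] at h
      obtain ⟨C, hC⟩ := freq_of_mean FR.w11 aQ_nonneg (FR.meanQ h)
      refine ⟨C, (hC.and_eventually (eventually_ge_atTop 2)).mono fun N hN => ?_⟩
      obtain ⟨h1, h2⟩ := hN
      have hN0 : (0 : ℝ) < N := by
        have : 0 < N := by omega
        exact_mod_cast this
      have hl : 0 < Real.log N := Real.log_pos (by exact_mod_cast h2)
      unfold aQ at h1
      rw [div_le_iff₀ (mul_pos hN0 hl)] at h1
      rw [integral_eq]
      exact h1
    tfae_have 4 → 1 := by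
      rintro ⟨C, hC⟩
      rw [wm_iff]
      by_contra h
      obtain ⟨N, ⟨h1, h2⟩, h3⟩ := ((hC.and_eventually (eventually_ge_atTop 2)).and_eventually
        ((FR.topQ h).eventually_gt_atTop C)).exists
      have hN0 : (0 : ℝ) < N := by
        have : 0 < N := by omega
        exact_mod_cast this
      have hl : 0 < Real.log N := Real.log_pos (by exact_mod_cast h2)
      unfold aQ at h3
      rw [lt_div_iff₀ (mul_pos hN0 hl)] at h3
      rw [integral_eq] at h1
      linarith
    tfae_finish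
  · intro h
    have key : ∀ ρ ∈ Zeros, ρ.re = 1 / 2 ∧ deriv riemannZeta ρ ≠ 0 := by
      intro ρ hρ
      by_contra hcon
      have h1 : ρ.re ≠ 1 / 2 ∨ deriv riemannZeta ρ = 0 := by
        by_cases h2 : ρ.re = 1 / 2
        · right
          by_contra h3
          exact hcon ⟨h2, h3⟩
        · exact Or.inl h2
      obtain ⟨c, hc, h2⟩ := FR.D_big hρ h1
      obtain ⟨N, ⟨h3, h4⟩, h5⟩ := (((h (c / 2) (half_pos hc)).and_eventually (eventually_ge_atTop 2)).and_eventually h2).exists
      have hN0 : (0 : ℝ) < N := by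
        have : 0 < N := by omega
        exact_mod_cast this
      have hl : 0 < Real.log N := Real.log_pos (by exact_mod_cast h4)
      have h6 : 0 < Real.log N ^ 3 / N := by positivity
      rw [franel_eq] at h3
      have h7 : c / 2 * Real.log N ^ 3 / N = c / 2 * (Real.log N ^ 3 / N) := by ring
      rw [h7] at h3
      nlinarith
    exact ⟨rh_iff_strip.2 fun s hs => (key s hs).1, fun ρ hρ => (key ρ hρ).2⟩

end Pool.Agent.Results.MP_323ce2_nt.FranelSum
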